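import Mathlib

set_option autoImplicit false

/-! Statements for the project TG (torsion of class groups of quadratic fields of discriminant `f(t)`,
`f` a polynomial of any degree). -/

namespace Pool.Agent.Y159.TG

open Polynomial Finset
open scoped Classical

/-- TG-LS: the larger sieve of Gallagher -/
def TaskLS : Prop :=
  ∀ (S : Finset ℤ) (L : ℝ), 1 ≤ L → (∀ a ∈ S, ∀ b ∈ S, |((a - b : ℤ) : ℝ)| ≤ L) →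
    ∀ (P : Finset ℕ) (ν : ℕ → ℝ),
      (∀ p ∈ P, p.Prime ∧ 0 < ν p ∧ ((S.image (fun a : ℤ => (a : ZMod p))).card : ℝ) ≤ ν p) →
      (S.card : ℝ) * (∑ p ∈ P, Real.log p / ν p - Real.log L) ≤ ∑ p ∈ P, Real.log p

/-- TG-RES: the number of residues `x` modulo `p` for which `k² f(x) + m` is a square -/
def TaskRes : Prop :=
  ∀ f : ℤ[X], (∀ (c : ℚ) (g : ℚ[X]), f.map (Int.castRingHom ℚ) ≠ C c * g ^ 2) →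
    ∃ (K : ℝ) (P0 : ℕ) (n ρ : ℤ), 0 ≤ K ∧ n ≠ 0 ∧ ρ ≠ 0 ∧
      ∀ p : ℕ, p.Prime → P0 < p → ∀ k m : ℤ, ¬ (p : ℤ) ∣ k → ¬ (p : ℤ) ∣ n * m + k ^ 2 * ρ →
        ∀ A : Finset (ZMod p),
          (∀ x ∈ A, IsSquare ((k : ZMod p) ^ 2 * (f.map (Int.castRingHom (ZMod p))).eval x + m)) →
          (A.card : ℝ) ≤ (p : ℝ) / 2 + K * √(p : ℝ)

/-- TG-SUM: sums over the primes up to `H ^ (1 / 2 + 2 δ)` -/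
def TaskSum : Prop :=
  ∀ (K : ℝ) (A : ℕ) (δ : ℝ), 0 ≤ K → 0 < δ → δ ≤ 1 / 4 → ∃ H0 : ℝ, 1 ≤ H0 ∧ ∀ H : ℝ, H0 ≤ H →
    ∀ E : Finset ℕ, E.card ≤ A →
      δ * Real.log H ≤ ∑ p ∈ (range (⌊H ^ (1 / 2 + 2 * δ)⌋₊ + 1)).filter
          (fun p : ℕ => p.Prime ∧ H ^ δ < (p : ℝ) ∧ p ∉ E),
            Real.log p / ((p : ℝ) / 2 + K * √(p : ℝ)) - Real.log H ∧
      ∑ p ∈ (range (⌊H ^ (1 / 2 + 2 * δ)⌋₊ + 1)).filter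
          (fun p : ℕ => p.Prime ∧ H ^ δ < (p : ℝ) ∧ p ∉ E), Real.log p ≤ 4 * H ^ (1 / 2 + 2 * δ)

/-- TG-GROW: the size of the values of a polynomial -/
def TaskGrow : Prop :=
  ∀ f : ℤ[X], 1 ≤ f.natDegree → ∃ (T0 G : ℝ), 1 ≤ T0 ∧ 1 ≤ G ∧ ∀ t : ℤ,
    (1 ≤ |(t : ℝ)| → |((f.eval t : ℤ) : ℝ)| ≤ G * |(t : ℝ)| ^ f.natDegree) ∧
    (T0 ≤ |(t : ℝ)| → |(t : ℝ)| ^ f.natDegree ≤ 2 * |((f.eval t : ℤ) : ℝ)|)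

/-- TG-CNT: few `t` in an interval for which `k² f(t) + m` is a square -/
def TaskCnt : Prop :=
  ∀ f : ℤ[X], (∀ (c : ℚ) (g : ℚ[X]), f.map (Int.castRingHom ℚ) ≠ C c * g ^ 2) →
    ∀ δ A : ℝ, 0 < δ → δ ≤ 1 / 4 → 1 ≤ A → ∃ (C : ℝ) (P0 : ℕ), 0 < C ∧
      ∀ x H : ℝ, 1 ≤ H → ∀ k m : ℤ, k ≠ 0 → |(k : ℝ)| ≤ H ^ A → |(m : ℝ)| ≤ H ^ A →
        (∃ p : ℕ, p.Prime ∧ P0 < p ∧ (p : ℤ) ∣ m ∧ ¬ (p : ℤ) ∣ k) →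
        ∀ S : Finset ℤ, (∀ t ∈ S, x ≤ (t : ℝ) ∧ (t : ℝ) ≤ x + H ∧ ∃ u : ℤ, k ^ 2 * f.eval t + m = u ^ 2) →
          (S.card : ℝ) ≤ C * H ^ (1 / 2 + 2 * δ)

end Pool.Agent.Y159.TG
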