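import Pool.Agent.Y159.TG.Stm
import Pool.Agent.Y159.QS.Single
import Pool.Agent.TH869.EVF.Dy

set_option autoImplicit false

/-! Collisions in polynomial families. -/

namespace Pool.Agent.Y159.TG

open Finset Pool.Agent.TH869.EVF Pool.Agent.Y159.QS
open scoped Classical

theorem coll_g (hcnt : TaskCnt) (f : Polynomial ℤ)
    (hf : ∀ (c : ℚ) (g : Polynomial ℚ), f.map (Int.castRingHom ℚ) ≠ Polynomial.C c * g ^ 2)
    (δ A : ℝ) (hδ : 0 < δ) (hδ1 : δ ≤ 1 / 4) (hA : 1 ≤ A) : ∃ (C : ℝ) (P0 : ℕ), 0 < C ∧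
    ∀ (l : ℕ), 1 ≤ l → ∀ M Z H x : ℝ, 1 ≤ M → 1 ≤ Z → 1 ≤ H → 4 * Z ^ 2 ≤ H ^ A →
    ∀ p q : ℕ, p.Prime → P0 < p → p ≠ 2 → (((p * q) ^ l : ℕ) : ℝ) ≤ Z ^ 2 → ∀ S : Finset ℤ,
    (∀ t ∈ S, M ^ 2 ≤ 2 * |((f.eval t : ℤ) : ℝ)| ∧ x ≤ (t : ℝ) ∧ (t : ℝ) ≤ x + H) →
    ((S.filter (fun t => Coll l Z (f.eval t) p q)).card : ℝ) ≤
      C * (Z / M) * H ^ (1 / 2 + 2 * δ) := by
  obtain ⟨C0, P0, hC00, hC0⟩ := hcnt f hf δ A hδ hδ1 hA
  refine ⟨8 * C0, P0, by positivity, ?_⟩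
  intro l hl M Z H x hM hZ hH hZH p q hp hpP hp2 hpq S hS
  have hM0 : 0 < M := by linarith
  have hZ0 : 0 < Z := by linarith
  set Mq : ℕ := (p * q) ^ l with hMq
  set Kb : ℕ := ⌊4 * Z / M⌋₊ with hKb
  have hKb' : (Kb : ℝ) ≤ 4 * Z / M := Nat.floor_le (by positivity)
  set G : ℕ → ℤ → Finset ℤ := fun k σ => S.filter (fun t =>
    ∃ u : ℤ, (k : ℤ) ^ 2 * f.eval t = u ^ 2 - 4 * σ * Mq ∧ Int.gcd u k ∣ 2) with hG
  have hsub : S.filter (fun t => Coll l Z (f.eval t) p q) ⊆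
      (Finset.Icc 1 Kb).biUnion (fun k => G k 1 ∪ G k (-1)) := by
    intro t ht
    rw [mem_filter] at ht
    obtain ⟨htS, k, u, σ, hk, hσ, h1, h2, h3⟩ := ht
    obtain ⟨h4, -⟩ := hS t htS
    have h6 : (k : ℝ) * M ≤ 4 * Z := by
      have h7 : ((k : ℝ) * M) ^ 2 ≤ (4 * Z) ^ 2 := by
        calc ((k : ℝ) * M) ^ 2 = (k : ℝ) ^ 2 * M ^ 2 := by ring
          _ ≤ (k : ℝ) ^ 2 * (2 * |((f.eval t : ℤ) : ℝ)|) := by gcongr
          _ = 2 * ((k : ℝ) ^ 2 * |((f.eval t : ℤ) : ℝ)|) := by ring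
          _ ≤ 2 * (8 * Z ^ 2) := by gcongr
          _ = _ := by ring
      exact le_of_sq_le_sq h7 (by positivity)
    rw [mem_biUnion]
    refine ⟨k, ?_, ?_⟩
    · rw [mem_Icc]
      refine ⟨hk, ?_⟩
      rw [hKb]
      apply Nat.le_floor
      rw [le_div_iff₀ hM0]
      exact h6
    · rw [mem_union]
      rcases hσ with rfl | rfl
      · left
        rw [hG, mem_filter]
        exact ⟨htS, u, h1, h2⟩
      · right
        rw [hG, mem_filter]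
        exact ⟨htS, u, h1, h2⟩
  have hHp : 0 ≤ H ^ (1 / 2 + 2 * δ) := by positivity
  have hone : ∀ k ∈ Finset.Icc 1 Kb, ∀ σ : ℤ, (σ = 1 ∨ σ = -1) →
      ((G k σ).card : ℝ) ≤ C0 * H ^ (1 / 2 + 2 * δ) := by
    intro k hk σ hσ
    rw [mem_Icc] at hk
    rcases (G k σ).eq_empty_or_nonempty with h0 | ⟨t0, ht0⟩
    · rw [h0, card_empty, Nat.cast_zero]; positivity
    have hpp : Prime (p : ℤ) := Nat.prime_iff_prime_int.mp hp
    have hpM : (p : ℤ) ∣ (Mq : ℤ) := by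
      have : p ∣ Mq := by
        rw [hMq]
        exact (Dvd.intro q rfl).trans (dvd_pow_self _ (by omega))
      exact_mod_cast this
    have hpk : ¬ (p : ℤ) ∣ (k : ℤ) := by
      intro h3
      rw [hG, mem_filter] at ht0
      obtain ⟨-, u, hu1, hu2⟩ := ht0
      have h4 : (p : ℤ) ∣ u := by
        have e : u ^ 2 = (k : ℤ) ^ 2 * f.eval t0 + 4 * σ * Mq := by linarith
        have : (p : ℤ) ∣ u ^ 2 := by
          rw [e]
          exact dvd_add ((dvd_pow h3 two_ne_zero).mul_right _) (hpM.mul_left _)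
        exact hpp.dvd_of_dvd_pow this
      have h5 : (p : ℤ) ∣ (Int.gcd u k : ℤ) := Int.dvd_coe_gcd h4 h3
      have h6 : p ∣ Int.gcd u k := by exact_mod_cast h5
      exact hp2 ((Nat.prime_dvd_prime_iff_eq hp Nat.prime_two).mp (h6.trans hu2))
    have hZ2 : 4 * Z ≤ 4 * Z ^ 2 := by nlinarith
    have hkb : |((k : ℤ) : ℝ)| ≤ H ^ A := by
      have h1 : (k : ℝ) ≤ 4 * Z / M := by
        have : (k : ℝ) ≤ Kb := by exact_mod_cast hk.2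
        linarith
      have h2 : 4 * Z / M ≤ 4 * Z := div_le_self (by positivity) hM
      rw [abs_of_nonneg (by positivity)]
      push_cast
      linarith
    have hmb : |((4 * σ * Mq : ℤ) : ℝ)| ≤ H ^ A := by
      have h1 : |((4 * σ * Mq : ℤ) : ℝ)| = 4 * (Mq : ℝ) := by
        rcases hσ with rfl | rfl
        · push_cast
          rw [abs_of_nonneg (by positivity)]
        · push_cast
          rw [neg_mul, abs_neg, abs_of_nonneg (by positivity)]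
      rw [h1]
      linarith
    refine hC0 x H hH k (4 * σ * Mq) (by omega) hkb hmb ⟨p, hp, hpP, hpM.mul_left _, hpk⟩ (G k σ) ?_
    intro t ht
    rw [hG, mem_filter] at ht
    obtain ⟨htS, u, hu1, -⟩ := ht
    obtain ⟨-, h1, h2⟩ := hS t htS
    exact ⟨h1, h2, u, by linarith⟩
  have h1 : ((S.filter (fun t => Coll l Z (f.eval t) p q)).card : ℝ) ≤
      ∑ k ∈ Finset.Icc 1 Kb, ((G k 1 ∪ G k (-1)).card : ℝ) := by
    exact_mod_cast (card_le_card hsub).trans card_biUnion_le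
  refine h1.trans ?_
  calc ∑ k ∈ Finset.Icc 1 Kb, ((G k 1 ∪ G k (-1)).card : ℝ)
      ≤ ∑ k ∈ Finset.Icc 1 Kb, (2 * (C0 * H ^ (1 / 2 + 2 * δ))) := by
        apply Finset.sum_le_sum
        intro k hk
        have h2 : ((G k 1 ∪ G k (-1)).card : ℝ) ≤ (G k 1).card + (G k (-1)).card := by
          exact_mod_cast card_union_le _ _
        have h3 := hone k hk 1 (Or.inl rfl)
        have h4 := hone k hk (-1) (Or.inr rfl)
        linarith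
    _ = Kb * (2 * (C0 * H ^ (1 / 2 + 2 * δ))) := by
        rw [sum_const, nsmul_eq_mul, Nat.card_Icc, Nat.add_sub_cancel]
    _ ≤ (4 * Z / M) * (2 * (C0 * H ^ (1 / 2 + 2 * δ))) := by gcongr
    _ = _ := by ring

/-- the sum over a window on one side -/
theorem sum_g1 (hcnt : TaskCnt) (f : Polynomial ℤ)
    (hf : ∀ (c : ℚ) (g : Polynomial ℚ), f.map (Int.castRingHom ℚ) ≠ Polynomial.C c * g ^ 2)
    (δ A : ℝ) (hδ : 0 < δ) (hδ1 : δ ≤ 1 / 4) (hA : 1 ≤ A) (l : ℕ) (hl : 1 ≤ l) :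
    ∃ (C : ℝ) (P0 : ℕ), 0 < C ∧ ∀ M H x : ℝ, 1 ≤ M → 1 ≤ H →
    ∀ z : ℕ, 2 * (P0 + 3) ≤ z → 4 * ((150 * (z : ℝ)) ^ l) ^ 2 ≤ H ^ A → ∀ S : Finset ℤ,
    (∀ t ∈ S, M ^ 2 ≤ 2 * |((f.eval t : ℤ) : ℝ)| ∧ x ≤ (t : ℝ) ∧ (t : ℝ) ≤ x + H) →
    ∑ t ∈ S, (EC l ((150 * (z : ℝ)) ^ l) (f.eval t) (Qz z) : ℝ) ≤
      C * (Qz z).card ^ 2 * ((z : ℝ) ^ l / M) * H ^ (1 / 2 + 2 * δ) := by
  obtain ⟨C1, P0, hC10, hC1⟩ := coll_g hcnt f hf δ A hδ hδ1 hA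
  refine ⟨C1 * 150 ^ l, P0, by positivity, ?_⟩
  intro M H x hM hH z hz hZH S hS
  have hM0 : 0 < M := by linarith
  have hz1 : 1 ≤ z := by omega
  have hzr : (1 : ℝ) ≤ z := by exact_mod_cast hz1
  set Z : ℝ := (150 * (z : ℝ)) ^ l with hZ
  have hZ1 : 1 ≤ Z := one_le_pow₀ (by linarith)
  have hswap : ∑ t ∈ S, (EC l Z (f.eval t) (Qz z) : ℝ) ≤
      ∑ x ∈ Qz z ×ˢ Qz z, ((S.filter (fun t => Coll l Z (f.eval t) x.1 x.2)).card : ℝ) := by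
    have e1 : ∀ t ∈ S, (EC l Z (f.eval t) (Qz z) : ℝ) ≤
        ∑ x ∈ Qz z ×ˢ Qz z, if Coll l Z (f.eval t) x.1 x.2 then (1 : ℝ) else 0 := by
      intro t _
      have e2 : EC l Z (f.eval t) (Qz z) ≤
          ((Qz z ×ˢ Qz z).filter (fun x => Coll l Z (f.eval t) x.1 x.2)).card := by
        unfold EC
        apply card_le_card
        intro x hx
        rw [mem_filter] at hx ⊢
        exact ⟨hx.1, hx.2.2⟩
      rw [← Finset.sum_filter, sum_const, nsmul_eq_mul, mul_one]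
      exact_mod_cast e2
    refine (Finset.sum_le_sum e1).trans (le_of_eq ?_)
    rw [Finset.sum_comm]
    refine Finset.sum_congr rfl fun x _ => ?_
    rw [← Finset.sum_filter, sum_const, nsmul_eq_mul, mul_one]
  refine hswap.trans ?_
  have hone : ∀ y ∈ Qz z ×ˢ Qz z,
      ((S.filter (fun t => Coll l Z (f.eval t) y.1 y.2)).card : ℝ) ≤
      C1 * (Z / M) * H ^ (1 / 2 + 2 * δ) := by
    intro y hy
    rw [mem_product] at hy
    obtain ⟨hp1, hp2, hp3⟩ := mem_Qz hy.1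
    obtain ⟨hq1, hq2, hq3⟩ := mem_Qz hy.2
    have hpz : z ≤ 2 * y.1 := by
      have : (z : ℝ) ≤ 2 * (y.1 : ℝ) := by linarith
      exact_mod_cast this
    refine hC1 l hl M Z H x hM hZ1 hH hZH y.1 y.2 hp1 (by omega) (by omega) ?_ S hS
    have hp3' : (y.1 : ℝ) ≤ z := by exact_mod_cast hp3
    have hq3' : (y.2 : ℝ) ≤ z := by exact_mod_cast hq3
    push_cast
    rw [hZ, ← pow_mul, mul_comm l 2, pow_mul]
    apply pow_le_pow_left₀ (by positivity)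
    nlinarith [mul_le_mul hp3' hq3' (Nat.cast_nonneg y.2) (Nat.cast_nonneg z)]
  calc ∑ x ∈ Qz z ×ˢ Qz z, ((S.filter (fun t => Coll l Z (f.eval t) x.1 x.2)).card : ℝ)
      ≤ ∑ x ∈ Qz z ×ˢ Qz z, C1 * (Z / M) * H ^ (1 / 2 + 2 * δ) := Finset.sum_le_sum hone
    _ = ((Qz z).card : ℝ) ^ 2 * (C1 * (Z / M) * H ^ (1 / 2 + 2 * δ)) := by
        rw [sum_const, nsmul_eq_mul, card_product]; push_cast; ring
    _ = _ := by
        have e1 : Z = 150 ^ l * (z : ℝ) ^ l := by rw [hZ, mul_pow]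
        rw [e1]
        ring

/-- the sum over a window -/
theorem sum_g (hcnt : TaskCnt) (f : Polynomial ℤ)
    (hf : ∀ (c : ℚ) (g : Polynomial ℚ), f.map (Int.castRingHom ℚ) ≠ Polynomial.C c * g ^ 2)
    (δ A : ℝ) (hδ : 0 < δ) (hδ1 : δ ≤ 1 / 4) (hA : 1 ≤ A) (l : ℕ) (hl : 1 ≤ l) :
    ∃ (C : ℝ) (P0 : ℕ), 0 < C ∧ ∀ M N H : ℝ, 1 ≤ M → 1 ≤ H →
    ∀ z : ℕ, 2 * (P0 + 3) ≤ z → 4 * ((150 * (z : ℝ)) ^ l) ^ 2 ≤ H ^ A → ∀ S : Finset ℤ,
    (∀ t ∈ S, M ^ 2 ≤ 2 * |((f.eval t : ℤ) : ℝ)| ∧ N ≤ |(t : ℝ)| ∧ |(t : ℝ)| ≤ N + H) →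
    ∑ t ∈ S, (EC l ((150 * (z : ℝ)) ^ l) (f.eval t) (Qz z) : ℝ) ≤
      C * (Qz z).card ^ 2 * ((z : ℝ) ^ l / M) * H ^ (1 / 2 + 2 * δ) := by
  obtain ⟨C1, P0, hC10, hC1⟩ := sum_g1 hcnt f hf δ A hδ hδ1 hA l hl
  refine ⟨2 * C1, P0, by positivity, ?_⟩
  intro M N H hM hH z hz hZH S hS
  have h1 := hC1 M H N hM hH z hz hZH (S.filter (fun t => 0 ≤ t)) (by
    intro t ht
    rw [mem_filter] at ht
    obtain ⟨h1, h2, h3⟩ := hS t ht.1
    have h0 : (0 : ℝ) ≤ t := by exact_mod_cast ht.2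
    rw [abs_of_nonneg h0] at h2 h3
    exact ⟨h1, h2, h3⟩)
  have h2 := hC1 M H (-N - H) hM hH z hz hZH (S.filter (fun t => ¬ 0 ≤ t)) (by
    intro t ht
    rw [mem_filter] at ht
    obtain ⟨h1, h2, h3⟩ := hS t ht.1
    have h0 : (t : ℝ) < 0 := by
      have := not_le.mp ht.2
      exact_mod_cast this
    rw [abs_of_neg h0] at h2 h3
    exact ⟨h1, by linarith, by linarith⟩)
  rw [← Finset.sum_filter_add_sum_filter_not S (fun t => 0 ≤ t)]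
  linarith

end Pool.Agent.Y159.TG
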