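import Pool.Agent.Y159.TG.Coll
import Pool.Agent.Y159.TQ.Short

set_option autoImplicit false

/-! Moments of the torsion of class groups of quadratic fields in polynomial families. -/

namespace Pool.Agent.Y159.TG

open NumberField Finset Pool.Agent.TH869.EVF Pool.Agent.Y159.QS Pool.Agent.Y159.TQ
open scoped Classical

/-- facts about the length of the range of primes; `M = N ^ (n / 2)` -/
theorem y_facts_g {l r n : ℕ} (hl : 1 ≤ l) (hr : 1 ≤ r) (hn : 1 ≤ n) {N H M y : ℝ} (hH : 1 ≤ H)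
    (hHN : H ≤ N) (hM : 1 ≤ M) (hMN : M ^ 2 = N ^ n) (hy0 : 0 < y)
    (hy : y ^ (2 * (l + r)) = H * N ^ n) (hy3 : y ^ (3 * r) ≤ H) :
    1 ≤ y ∧ y ≤ H ∧ N ^ (1 / (2 * ((l : ℝ) + r))) ≤ y ∧
      y ^ l / M * √H = H / y ^ r ∧ y ^ (2 * r) ≤ H / y ^ r := by
  have hN : 1 ≤ N := hH.trans hHN
  have hN0 : 0 < N := by linarith
  have hNn : N ≤ N ^ n := by
    calc N = N ^ 1 := (pow_one N).symm
      _ ≤ N ^ n := pow_le_pow_right₀ hN hn
  have hH0 : 0 < H := by linarith
  have hM0 : 0 < M := by linarith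
  have hy1 : 1 ≤ y := by
    by_contra h
    push Not at h
    have h1 : y ^ (2 * (l + r)) < 1 := pow_lt_one₀ hy0.le h (by omega)
    rw [hy] at h1
    nlinarith
  have hyr : 0 < y ^ r := by positivity
  refine ⟨hy1, ?_, ?_, ?_, ?_⟩
  · calc y = y ^ 1 := (pow_one y).symm
      _ ≤ y ^ (3 * r) := pow_le_pow_right₀ hy1 (by omega)
      _ ≤ H := hy3
  · have h1 : (N ^ (1 / (2 * ((l : ℝ) + r)))) ^ (2 * (l + r)) ≤ y ^ (2 * (l + r)) := by
      rw [hy, ← Real.rpow_natCast, ← Real.rpow_mul hN0.le]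
      have e : 1 / (2 * ((l : ℝ) + r)) * ((2 * (l + r) : ℕ) : ℝ) = 1 := by
        have : (l : ℝ) + r ≠ 0 := by
          have : (1 : ℝ) ≤ l := by exact_mod_cast hl
          positivity
        push_cast
        field_simp
      rw [e, Real.rpow_one]
      nlinarith
    exact (pow_le_pow_iff_left₀ (by positivity) hy0.le (by omega)).mp h1
  · have hsH : 0 < √H := Real.sqrt_pos.mpr hH0
    have hss : √H * √H = H := Real.mul_self_sqrt hH0.le
    have h1 : y ^ (l + r) = √H * M := by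
      have h2 : (y ^ (l + r)) ^ 2 = (√H * M) ^ 2 := by
        rw [← pow_mul, mul_comm (l + r) 2, hy, mul_pow, hMN, sq, hss]
      exact (pow_left_inj₀ (by positivity) (by positivity) two_ne_zero).mp h2
    rw [div_mul_eq_mul_div, div_eq_div_iff (by positivity) (by positivity)]
    calc y ^ l * √H * y ^ r = y ^ (l + r) * √H := by rw [pow_add]; ring
      _ = (√H * √H) * M := by rw [h1]; ring
      _ = H * M := by rw [hss]
  · rw [le_div_iff₀ hyr, ← pow_add]
    have e : 2 * r + r = 3 * r := by ring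
    rw [e]; exact hy3

theorem short_g (hcnt : TaskCnt) (hgrow : TaskGrow) (hsup : TaskSup) (f : Polynomial ℤ)
    (hf : ∀ (c : ℚ) (g : Polynomial ℚ), f.map (Int.castRingHom ℚ) ≠ Polynomial.C c * g ^ 2)
    (l r : ℕ) (hl : 1 ≤ l) (hr : 1 ≤ r) (ε : ℝ) (hε : 0 < ε) :
    ∃ C : ℝ, 0 < C ∧
    ∀ N H M y : ℝ, 1 ≤ H → H ≤ N → 1 ≤ M → M ^ 2 = N ^ f.natDegree → 0 < y →
    y ^ (2 * (l + r)) = H * N ^ f.natDegree → y ^ (3 * r) ≤ H →
    ∀ (S : Finset ℤ) (K : ℤ → Type) [∀ t, Field (K t)] [∀ t, NumberField (K t)],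
    (∀ t ∈ S, (N ≤ |(t : ℝ)| ∧ |(t : ℝ)| ≤ N + H) ∧ Module.finrank ℚ (K t) = 2 ∧
      NumberField.discr (K t) = f.eval t) →
    ∑ t ∈ S, (Nat.card {x : ClassGroup (𝓞 (K t)) // x ^ l = 1} : ℝ) ^ r ≤
      C * N ^ ε * (M ^ r * (H / y ^ r)) := by
  have hlr : (1 : ℝ) ≤ l := by exact_mod_cast hl
  have hrr : (1 : ℝ) ≤ r := by exact_mod_cast hr
  have hn : 1 ≤ f.natDegree := by
    by_contra h
    have h0 : f.natDegree = 0 := by omega
    obtain ⟨c, hc⟩ := Polynomial.natDegree_eq_zero.mp h0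
    apply hf c 1
    rw [← hc]; simp
  set n : ℕ := f.natDegree with hnd
  have hnr : (1 : ℝ) ≤ n := by exact_mod_cast hn
  set κ : ℝ := 1 / (2 * ((l : ℝ) + r)) with hκ
  have hκ0 : 0 < κ := by rw [hκ]; positivity
  set ε1 : ℝ := min (ε / (3 * r * n)) (1 / 2) with hε1
  have hε10 : 0 < ε1 := lt_min (by positivity) (by norm_num)
  have hε1h : ε1 ≤ 1 / 2 := min_le_right _ _
  have hε1r : r * (n * ε1) ≤ ε / 3 := by
    have h1 : ε1 ≤ ε / (3 * r * n) := min_le_left _ _
    rw [le_div_iff₀ (by positivity)] at h1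
    linarith
  have hε1r' : r * ε1 ≤ ε / 3 := by
    refine le_trans ?_ hε1r
    have : 0 ≤ (r : ℝ) * ε1 := by positivity
    nlinarith
  set δ : ℝ := min (ε / 6) (1 / 4) with hδ
  have hδ0 : 0 < δ := lt_min (by positivity) (by norm_num)
  have hδ4 : δ ≤ 1 / 4 := min_le_right _ _
  have hδε : 2 * δ ≤ ε / 3 := by
    have : δ ≤ ε / 6 := min_le_left _ _
    linarith
  set A : ℝ := 2 * l + 1 with hA
  obtain ⟨C0, hC00, hC0⟩ := single ε1 hε10
  obtain ⟨C3, P0, hC30, hC3⟩ := sum_g hcnt f hf δ A hδ0 hδ4 (by rw [hA]; linarith) l hl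
  obtain ⟨C4, Y0, hC40, hY01, hC4⟩ := hsup f hf r hr ε1 hε10 hε1h
  obtain ⟨T0, G1, hT01, hG11, hgr⟩ := hgrow f hn
  set G : ℝ := G1 * 2 ^ n with hG
  have hG1 : 1 ≤ G := by
    rw [hG]
    have : (1 : ℝ) ≤ 2 ^ n := one_le_pow₀ (by norm_num)
    nlinarith
  have hG0' : 0 < G := by linarith
  set Δ3 : ℝ := 2 * ((P0 : ℝ) + 3) with hΔ3
  have hΔ30 : 0 ≤ Δ3 := by positivity
  set Y1 : ℝ := max Y0 (4 * (150 ^ l) ^ 2) with hY1
  have hY11 : 1 ≤ Y1 := hY01.trans (le_max_left _ _)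
  obtain ⟨X2, hX21, hX2⟩ := Pool.Agent.Y159.PT.large_N (1 / Y1) (8 * Real.log G + Δ3) 0 (8 * n) (κ / 2) κ
    (by positivity) (by positivity) hκ0
  set X1 : ℝ := max X2 T0 with hX1
  have hX11 : 1 ≤ X1 := hX21.trans (le_max_left _ _)
  have hCbig : 0 < (1024 * (C0 * G)) ^ r * 2 ^ (r - 1) * (4 + C3 + 6 * C4) := by positivity
  have hCsm : 0 < 4 * (C0 * G) ^ r * X1 ^ r := by positivity
  refine ⟨(1024 * (C0 * G)) ^ r * 2 ^ (r - 1) * (4 + C3 + 6 * C4) + 4 * (C0 * G) ^ r * X1 ^ r,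
    by positivity, ?_⟩
  intro N H M y hH hHN hM hMN hy0 hy hy3 S K _ _ hS
  obtain ⟨hy1, hyH, hNy, hyl, hy2⟩ := y_facts_g hl hr hn hH hHN hM hMN hy0 hy hy3
  have hyN : y ≤ N := hyH.trans hHN
  have hN : 1 ≤ N := hH.trans hHN
  have hN0 : 0 < N := by linarith
  have hH0 : 0 < H := by linarith
  have hM0 : 0 < M := by linarith
  have hyr : 0 < y ^ r := by positivity
  set V : ℝ := H / y ^ r with hV
  have hV0 : 0 < V := by positivity
  set F : ℝ := N ^ (ε / 3) with hF
  have hF1 : 1 ≤ F := Real.one_le_rpow hN (by positivity)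
  have hFε : F ^ 2 ≤ N ^ ε := by
    rw [hF, ← Real.rpow_natCast, ← Real.rpow_mul hN0.le]
    apply Real.rpow_le_rpow_of_exponent_le hN
    push_cast; linarith
  have hFF : F ≤ N ^ ε := le_trans (by nlinarith) hFε
  set B : ℝ := C0 * (G * (M * N ^ (n * ε1))) with hB
  have hB0 : 0 < B := by positivity
  have hBr : (M * N ^ (n * ε1)) ^ r ≤ M ^ r * F := by
    rw [mul_pow, ← Real.rpow_natCast (N ^ (n * ε1)) r, ← Real.rpow_mul hN0.le, mul_comm (n * ε1)]
    have : N ^ (r * (n * ε1)) ≤ F := Real.rpow_le_rpow_of_exponent_le hN hε1r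
    gcongr
  have hup : ∀ t ∈ S, |((f.eval t : ℤ) : ℝ)| ≤ G * N ^ n := by
    intro t ht
    have h1 := (hS t ht).1
    refine ((hgr t).1 (hN.trans h1.1)).trans ?_
    have h2 : |(t : ℝ)| ≤ 2 * N := by linarith
    calc G1 * |(t : ℝ)| ^ n ≤ G1 * (2 * N) ^ n := by gcongr
      _ = G * N ^ n := by rw [hG, mul_pow]; ring
  have hDB : ∀ t ∈ S, C0 * |((f.eval t : ℤ) : ℝ)| ^ (1 / 2 + ε1) ≤ B := by
    intro t ht
    have h2 : |((f.eval t : ℤ) : ℝ)| ^ (1 / 2 + ε1) ≤ G * (M * N ^ (n * ε1)) := by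
      calc |((f.eval t : ℤ) : ℝ)| ^ (1 / 2 + ε1) ≤ (G * N ^ n) ^ (1 / 2 + ε1) :=
            Real.rpow_le_rpow (abs_nonneg _) (hup t ht) (by positivity)
        _ = G ^ (1 / 2 + ε1) * (N ^ n) ^ (1 / 2 + ε1) := Real.mul_rpow hG0'.le (by positivity)
        _ = G ^ (1 / 2 + ε1) * (M * N ^ (n * ε1)) := by
            congr 1
            rw [Real.rpow_add (by positivity)]
            congr 1
            · rw [← hMN, ← Real.sqrt_eq_rpow, Real.sqrt_sq hM0.le]
            · rw [← Real.rpow_natCast N n, ← Real.rpow_mul hN0.le]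
        _ ≤ G ^ (1 : ℝ) * (M * N ^ (n * ε1)) := by
            gcongr
            linarith
        _ = _ := by rw [Real.rpow_one]
    rw [hB]
    gcongr
  set T : ℤ → ℝ := fun t => (Nat.card {x : ClassGroup (𝓞 (K t)) // x ^ l = 1} : ℝ) with hT
  have hT0 : ∀ t, 0 ≤ T t := fun t => Nat.cast_nonneg _
  have hTB : ∀ t ∈ S, T t ≤ B := by
    intro t ht
    have h1 := (hC0 l hl (K t) (hS t ht).2.1 0 ∅ (by simp)).1
    rw [(hS t ht).2.2] at h1
    exact h1.trans (hDB t ht)
  have hScard : (S.card : ℝ) ≤ 4 * H := card_window hH S (fun t ht => (hS t ht).1)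
  rcases lt_or_ge N X1 with hXX | hXX
  · -- small `N`
    have h1 : ∑ t ∈ S, T t ^ r ≤ 4 * H * B ^ r := by
      calc ∑ t ∈ S, T t ^ r ≤ ∑ t ∈ S, B ^ r :=
            Finset.sum_le_sum fun t ht => pow_le_pow_left₀ (hT0 t) (hTB t ht) r
        _ = S.card * B ^ r := by rw [sum_const, nsmul_eq_mul]
        _ ≤ _ := by gcongr
    refine h1.trans ?_
    have hyX1 : y ^ r ≤ X1 ^ r := by
      gcongr; linarith
    have h2 : H = y ^ r * V := by rw [hV]; field_simp
    have h3 : B ^ r = (C0 * G) ^ r * (M * N ^ (n * ε1)) ^ r := by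
      rw [hB, ← mul_pow]; congr 1; ring
    calc 4 * H * B ^ r = 4 * (y ^ r * V) * ((C0 * G) ^ r * (M * N ^ (n * ε1)) ^ r) := by
          rw [h3, ← h2]
      _ ≤ 4 * (X1 ^ r * V) * ((C0 * G) ^ r * (M ^ r * F)) := by gcongr
      _ = 4 * (C0 * G) ^ r * X1 ^ r * F * (M ^ r * V) := by ring
      _ ≤ _ := by
          have hsr : 0 ≤ M ^ r * V := by positivity
          apply mul_le_mul_of_nonneg_right _ hsr
          apply mul_le_mul _ hFF (by positivity) (by positivity)
          linarith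
  · -- large `N`
    obtain ⟨e1, e2⟩ := hX2 N ((le_max_left _ _).trans hXX)
    have hT0N : T0 ≤ N := (le_max_right _ _).trans hXX
    have hY1y : Y1 ≤ y := by
      have h1 : Y1 ≤ N ^ κ := by
        rw [Real.rpow_neg hN0.le, inv_eq_one_div] at e1
        exact (one_div_le_one_div (by positivity) (by linarith)).mp e1
      exact h1.trans hNy
    have hYy : Y0 ≤ y := (le_max_left _ _).trans hY1y
    obtain ⟨z, hzy, hz, hbad⟩ := hC4 y hYy
    set N0 : ℝ := ((Qz z).card : ℝ) with hN0d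
    have hN01 : 1 ≤ N0 := by
      refine le_trans ?_ hz
      exact Real.one_le_rpow hy1 (by linarith)
    have hN0p : 0 < N0 := by linarith
    have hlogN : 8 * Real.log G + Δ3 + 8 * n * Real.log N ≤ N0 := by
      have h1 : (1 / Y1) * N ^ (κ / 2) ≤ N ^ (κ / 2) := by
        have : 1 / Y1 ≤ 1 := by rw [div_le_one (by linarith)]; exact hY11
        have hp : 0 < N ^ (κ / 2) := Real.rpow_pos_of_pos hN0 _
        nlinarith
      have h2 : N ^ (κ / 2) ≤ y ^ (1 - ε1) := by
        calc N ^ (κ / 2) = (N ^ κ) ^ ((1 : ℝ) / 2) := by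
              rw [← Real.rpow_mul hN0.le]; congr 1; ring
          _ ≤ y ^ ((1 : ℝ) / 2) := Real.rpow_le_rpow (by positivity) hNy (by norm_num)
          _ ≤ y ^ (1 - ε1) := Real.rpow_le_rpow_of_exponent_le hy1 (by linarith)
      linarith
    have hlogN0 : 0 ≤ Real.log N := Real.log_nonneg hN
    have hlogG0 : 0 ≤ Real.log G := Real.log_nonneg hG1
    have hQz : (Qz z).card ≤ z := by
      have h1 : Qz z ⊆ Finset.Icc 1 z := by
        intro p hp
        obtain ⟨hpp, -, hpz⟩ := mem_Qz hp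
        exact Finset.mem_Icc.mpr ⟨hpp.one_lt.le, by exact_mod_cast hpz⟩
      have h2 := card_le_card h1
      rw [Nat.card_Icc] at h2
      omega
    have hzD : 2 * (P0 + 3) ≤ z := by
      have h1 : Δ3 ≤ (z : ℝ) := by
        have h2 : N0 ≤ z := by rw [hN0d]; exact_mod_cast hQz
        have h3 : 0 ≤ 8 * (n : ℝ) * Real.log N := by positivity
        linarith
      rw [hΔ3] at h1
      exact_mod_cast h1
    have hzH : (z : ℝ) ≤ H := hzy.trans hyH
    have hZH : 4 * ((150 * (z : ℝ)) ^ l) ^ 2 ≤ H ^ A := by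
      have h1 : 4 * (150 ^ l) ^ 2 ≤ H := (le_max_right _ _).trans (hY1y.trans hyH)
      have h2 : H ^ A = (H ^ l) ^ 2 * H := by
        rw [hA, Real.rpow_add hH0, Real.rpow_one, ← pow_mul, mul_comm l 2]
        congr 1
        rw [← Real.rpow_natCast H (2 * l)]
        congr 1
        push_cast; ring
      rw [h2, mul_pow, mul_pow]
      calc 4 * ((150 ^ l) ^ 2 * ((z : ℝ) ^ l) ^ 2) = ((z : ℝ) ^ l) ^ 2 * (4 * (150 ^ l) ^ 2) := by ring
        _ ≤ (H ^ l) ^ 2 * H := by gcongr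
    set Z : ℝ := (150 * (z : ℝ)) ^ l with hZ
    set W : ℝ := (1024 * B) ^ r * 2 ^ (r - 1) with hW
    have hW0 : 0 < W := by positivity
    set bad : Finset ℤ := S.filter (fun t => ((Qz z).card : ℝ) / 4 <
      |∑ p ∈ Qz z, (jacobiSym (f.eval t) p : ℝ)|) with hbadd
    have hpt : ∀ t ∈ S, T t ^ r ≤ W * ((1 / N0) ^ r +
        (EC l Z (f.eval t) (Qz z) : ℝ) / N0 ^ 2 + if t ∈ bad then 1 else 0) := by
      intro t ht
      have hE0 : (0 : ℝ) ≤ (EC l Z (f.eval t) (Qz z) : ℝ) / N0 ^ 2 := by positivity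
      by_cases hDb : t ∈ bad
      · rw [if_pos hDb]
        have h1 : T t ^ r ≤ B ^ r := pow_le_pow_left₀ (hT0 t) (hTB t ht) r
        have h2 : B ^ r ≤ W := by
          have h3 : (1 : ℝ) ≤ 1024 ^ r := one_le_pow₀ (by norm_num)
          have h4 : (1 : ℝ) ≤ 2 ^ (r - 1) := one_le_pow₀ (by norm_num)
          calc B ^ r = 1 * B ^ r * 1 := by ring
            _ ≤ 1024 ^ r * B ^ r * 2 ^ (r - 1) := by gcongr
            _ = W := by rw [hW, mul_pow 1024 B r]
        have h5 : 0 ≤ (1 / N0) ^ r := by positivity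
        nlinarith
      · rw [if_neg hDb, add_zero]
        obtain ⟨D, hD⟩ : ∃ D : ℤ, D = f.eval t := ⟨_, rfl⟩
        have hDne : D ≠ 0 := by
          rw [hD, ← (hS t ht).2.2]
          exact NumberField.discr_ne_zero _
        have hgood : |∑ p ∈ Qz z, (jacobiSym D p : ℝ)| ≤ ((Qz z).card : ℝ) / 4 := by
          by_contra hcon
          push Not at hcon
          rw [hD] at hcon
          exact hDb (by rw [hbadd, mem_filter]; exact ⟨ht, hcon⟩)
        have hlogD : 8 * Real.log |(D : ℝ)| ≤ (Qz z).card := by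
          have h1 : Real.log |(D : ℝ)| ≤ Real.log G + n * Real.log N := by
            have h2 : Real.log G + n * Real.log N = Real.log (G * N ^ n) := by
              rw [Real.log_mul hG0'.ne' (by positivity), Real.log_pow]
            rw [h2]
            apply Real.log_le_log
            · rw [abs_pos]; exact_mod_cast hDne
            · rw [hD]; exact hup t ht
          have h3 : 8 * Real.log |(D : ℝ)| ≤ N0 := by linarith
          exact h3
        have hmr := many_res hDne (Qz z) (fun p hp => (mem_Qz hp).1) hgood hlogD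
        set P : Finset ℕ := (Qz z).filter (fun p => jacobiSym D p = 1) with hP
        have hPQ : P ⊆ Qz z := filter_subset _ _
        have hPcard : N0 / 16 ≤ (P.card : ℝ) := by
          refine le_trans ?_ hmr
          linarith
        have hPle : (P.card : ℝ) ≤ N0 := by rw [hN0d]; exact_mod_cast card_le_card hPQ
        have h6 := (hC0 l hl (K t) (hS t ht).2.1 z P (by
          intro p hp
          rw [hP, mem_filter] at hp
          obtain ⟨hpQ, hjs⟩ := hp
          obtain ⟨hpp, hpz2, hpz⟩ := mem_Qz hpQ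
          have hp2 : p ≠ 2 := by
            rintro rfl
            have h7 : (z : ℝ) ≤ 4 := by
              push_cast at hpz2
              linarith
            have h8 : (6 : ℝ) ≤ z := by
              have : 6 ≤ z := by omega
              exact_mod_cast this
            linarith
          obtain ⟨hqr, hpD⟩ := qr_of_js hpp hp2 hjs
          rw [(hS t ht).2.2, ← hD]
          exact ⟨hpp, by exact_mod_cast hpz, hpD, hqr⟩)).2
        rw [(hS t ht).2.2, ← hD] at h6
        have hEmono : (EC l Z D P : ℝ) ≤ EC l Z D (Qz z) := by exact_mod_cast EC_mono hPQ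
        rw [← hD]
        have hDB' : C0 * |(D : ℝ)| ^ (1 / 2 + ε1) ≤ B := by rw [hD]; exact hDB t ht
        have h7 : T t * (P.card : ℝ) ^ 2 ≤ B * (2 * P.card + 4 * (EC l Z D (Qz z) : ℝ)) := by
          refine h6.trans ?_
          apply mul_le_mul hDB' (by linarith) (by positivity) hB0.le
        refine good_bound r hr (hT0 t) hB0.le hN0p hPcard (by positivity) ?_ h7
        rw [hN0d]
        exact_mod_cast (EC_le (l := l) (Z := Z) (D := D) (P := Qz z))
    -- the three sums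
    set G' : ℝ := y ^ (-((1 - ε1) * r)) with hG'
    have hG'0 : 0 ≤ G' := by positivity
    have hGV : G' ≤ F / y ^ r := by
      rw [le_div_iff₀ hyr, hG', ← Real.rpow_natCast y r, ← Real.rpow_add hy0]
      have e : -((1 - ε1) * r) + r = r * ε1 := by ring
      rw [e]
      calc y ^ (r * ε1) ≤ N ^ (r * ε1) := Real.rpow_le_rpow hy0.le hyN (by positivity)
        _ ≤ F := Real.rpow_le_rpow_of_exponent_le hN hε1r'
    have hHG : H * G' ≤ V * F := by
      calc H * G' ≤ H * (F / y ^ r) := by gcongr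
        _ = V * F := by rw [hV]; ring
    have hs1 : (S.card : ℝ) * (1 / N0) ^ r ≤ 4 * (V * F) := by
      have h1 : (1 / N0) ^ r ≤ G' := by
        have h2 : 1 / N0 ≤ y ^ (-(1 - ε1)) := by
          rw [Real.rpow_neg hy0.le, inv_eq_one_div]
          exact one_div_le_one_div_of_le (Real.rpow_pos_of_pos hy0 _) hz
        calc (1 / N0) ^ r ≤ (y ^ (-(1 - ε1))) ^ r := by gcongr
          _ = G' := by
              rw [hG', ← Real.rpow_natCast, ← Real.rpow_mul hy0.le]; congr 1; ring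
      calc (S.card : ℝ) * (1 / N0) ^ r ≤ 4 * H * G' := by gcongr
        _ = 4 * (H * G') := by ring
        _ ≤ _ := by gcongr
    have hs2 : ∑ t ∈ S, (EC l Z (f.eval t) (Qz z) : ℝ) / N0 ^ 2 ≤ C3 * (V * F) := by
      have h1 := hC3 M N H hM hH z hzD hZH S (fun t ht => by
        have h4 := (hS t ht).1
        have h5 := (hgr t).2 (hT0N.trans h4.1)
        refine ⟨?_, h4⟩
        have h6 : N ^ n ≤ |(t : ℝ)| ^ n := by
          have := h4.1
          gcongr
        rw [hMN]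
        linarith)
      have h2 : H ^ (1 / 2 + 2 * δ) ≤ √H * F := by
        rw [Real.rpow_add hH0, ← Real.sqrt_eq_rpow]
        have h3 : H ^ (2 * δ) ≤ F := by
          calc H ^ (2 * δ) ≤ N ^ (2 * δ) := Real.rpow_le_rpow hH0.le hHN (by positivity)
            _ ≤ F := Real.rpow_le_rpow_of_exponent_le hN hδε
        gcongr
      have h3 : (z : ℝ) ^ l / M * √H ≤ V := by
        rw [← hyl]
        gcongr
      rw [← Finset.sum_div, div_le_iff₀ (by positivity)]
      refine h1.trans ?_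
      calc C3 * ((Qz z).card : ℝ) ^ 2 * ((z : ℝ) ^ l / M) * H ^ (1 / 2 + 2 * δ)
          ≤ C3 * ((Qz z).card : ℝ) ^ 2 * ((z : ℝ) ^ l / M) * (√H * F) := by gcongr
        _ = C3 * ((Qz z).card : ℝ) ^ 2 * F * ((z : ℝ) ^ l / M * √H) := by ring
        _ ≤ C3 * ((Qz z).card : ℝ) ^ 2 * F * V := by gcongr
        _ = C3 * (V * F) * N0 ^ 2 := by rw [hN0d]; ring
    have hs3 : (bad.card : ℝ) ≤ 6 * C4 * (V * F) := by
      have h1 := bad_window hG'0 hC40.le hH _ hbad S (fun t ht => (hS t ht).1)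
      refine h1.trans ?_
      have h2 : y ^ (2 * r) ≤ V * F := hy2.trans (le_mul_of_one_le_right hV0.le hF1)
      calc 2 * (C4 * (2 * H * G' + y ^ (2 * r))) = 2 * (C4 * (2 * (H * G') + y ^ (2 * r))) := by ring
        _ ≤ 2 * (C4 * (2 * (V * F) + V * F)) := by gcongr
        _ = _ := by ring
    have hfin : ∑ t ∈ S, T t ^ r ≤ W * ((4 + C3 + 6 * C4) * (V * F)) := by
      calc ∑ t ∈ S, T t ^ r ≤ ∑ t ∈ S, W * ((1 / N0) ^ r +
            (EC l Z (f.eval t) (Qz z) : ℝ) / N0 ^ 2 +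
            if t ∈ bad then 1 else 0) := Finset.sum_le_sum hpt
        _ = W * ((S.card : ℝ) * (1 / N0) ^ r +
            ∑ t ∈ S, (EC l Z (f.eval t) (Qz z) : ℝ) / N0 ^ 2 +
            bad.card) := by
            rw [← Finset.mul_sum, Finset.sum_add_distrib, Finset.sum_add_distrib, sum_const,
              nsmul_eq_mul]
            congr 2
            rw [← Finset.sum_filter, sum_const, nsmul_eq_mul, mul_one]
            congr 2
            ext t
            rw [mem_filter, hbadd, mem_filter]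
            tauto
        _ ≤ W * (4 * (V * F) + C3 * (V * F) + 6 * C4 * (V * F)) := by gcongr
        _ = _ := by ring
    have hWle : W ≤ (1024 * (C0 * G)) ^ r * 2 ^ (r - 1) * (M ^ r * F) := by
      have h1 : (1024 * B) ^ r = (1024 * (C0 * G)) ^ r * (M * N ^ (n * ε1)) ^ r := by
        rw [hB, ← mul_pow]; congr 1; ring
      rw [hW, h1]
      calc (1024 * (C0 * G)) ^ r * (M * N ^ (n * ε1)) ^ r * 2 ^ (r - 1)
          ≤ (1024 * (C0 * G)) ^ r * (M ^ r * F) * 2 ^ (r - 1) := by gcongr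
        _ = _ := by ring
    refine hfin.trans ?_
    have hK0 : 0 ≤ 4 + C3 + 6 * C4 := by positivity
    calc W * ((4 + C3 + 6 * C4) * (V * F))
        ≤ ((1024 * (C0 * G)) ^ r * 2 ^ (r - 1) * (M ^ r * F)) * ((4 + C3 + 6 * C4) * (V * F)) := by
          gcongr
      _ = (1024 * (C0 * G)) ^ r * 2 ^ (r - 1) * (4 + C3 + 6 * C4) * F ^ 2 * (M ^ r * V) := by ring
      _ ≤ _ := by
          have hsr : 0 ≤ M ^ r * V := by positivity
          apply mul_le_mul_of_nonneg_right _ hsr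
          apply mul_le_mul _ hFε (by positivity) (by positivity)
          linarith

end Pool.Agent.Y159.TG
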